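import Pool.Agent.W2helper44.CP.Stm

/-!
Project CP (helper44), piece NEAR: maps `C¹`-close to the identity are isotopic to the identity.
-/

set_option autoImplicit false

open Set Filter Topology
open scoped ContDiff

noncomputable section

namespace Pool.Agent.W2helper44.CP

theorem p_NEAR : P_NEAR := by
  intro hG hI ι _ M ρ hR
  obtain ⟨η, L, hη, hL, hmem, hlip, -, -, -, -, hlast⟩ := hG ι M ρ hR
  obtain ⟨ε, hε, hinv⟩ := hI hG ι M ρ hR
  have hL0 : 0 < L := by linarith
  obtain ⟨κ, hκ, hκη, hκε, hκL, hκηL⟩ : ∃ κ : ℝ, 0 < κ ∧ κ ≤ η ∧ L * κ ≤ ε ∧ 3 * L * κ ≤ 1 / 2 ∧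
      2 * (L * κ) ≤ η / 2 := by
    refine ⟨min η (min (ε / L) (min (1 / (6 * L)) (η / (4 * L)))), by positivity, min_le_left _ _,
      ?_, ?_, ?_⟩
    · have h : min η (min (ε / L) (min (1 / (6 * L)) (η / (4 * L)))) ≤ ε / L :=
        (min_le_right _ _).trans (min_le_left _ _)
      have := mul_le_mul_of_nonneg_left h hL0.le
      rwa [mul_div_cancel₀ _ hL0.ne'] at this
    · have h : min η (min (ε / L) (min (1 / (6 * L)) (η / (4 * L)))) ≤ 1 / (6 * L) :=
        (min_le_right _ _).trans ((min_le_right _ _).trans (min_le_left _ _))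
      have := mul_le_mul_of_nonneg_left h (by positivity : 0 ≤ 3 * L)
      have e : 3 * L * (1 / (6 * L)) = 1 / 2 := by field_simp; norm_num
      linarith
    · have h : min η (min (ε / L) (min (1 / (6 * L)) (η / (4 * L)))) ≤ η / (4 * L) :=
        (min_le_right _ _).trans ((min_le_right _ _).trans (min_le_right _ _))
      have := mul_le_mul_of_nonneg_left h (by positivity : 0 ≤ 2 * L)
      have e : 2 * L * (η / (4 * L)) = η / 2 := by field_simp; norm_num
      linarith
  refine ⟨κ, hκ, fun ψ hψ hψM h0 h1 => ?_⟩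
  have hs0 : ∀ t : ℝ, 0 ≤ Real.smoothTransition t := fun t => Real.smoothTransition.nonneg t
  have hs1 : ∀ t : ℝ, Real.smoothTransition t ≤ 1 := fun t => Real.smoothTransition.le_one t
  have hK : ContDiff ℝ ∞ fun p : ℝ × Eu ι =>
      ρ (p.2 + Real.smoothTransition p.1 • (ψ p.2 - p.2)) := by
    refine hR.smooth.comp (contDiff_snd.add ((Real.smoothTransition.contDiff.comp contDiff_fst).smul
      ((hψ.comp contDiff_snd).sub contDiff_snd)))
  refine ⟨fun p => ρ (p.2 + Real.smoothTransition p.1 • (ψ p.2 - p.2)), hK, fun t => ?_,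
    fun x hx => ?_, fun x hx => ?_⟩
  · -- the diffeomorphisms
    set s : ℝ := Real.smoothTransition t with hs
    have hd : ∀ x ∈ M, ‖x + s • (ψ x - x) - x‖ ≤ κ := by
      intro x hx
      rw [add_sub_cancel_left, norm_smul, Real.norm_of_nonneg (hs0 t)]
      calc s * ‖ψ x - x‖ ≤ 1 * κ := mul_le_mul (hs1 t) (h0 x hx) (norm_nonneg _) zero_le_one
        _ = κ := one_mul κ
    have hcl : ∀ x ∈ M, ‖ρ (x + s • (ψ x - x)) - x‖ ≤ L * κ := by
      intro x hx
      have h := (hlip x hx (x + s • (ψ x - x)) x ((hd x hx).trans hκη) (by simp [hη.le])).1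
      rw [hR.id x hx] at h
      exact h.trans (mul_le_mul_of_nonneg_left (hd x hx) hL0.le)
    refine hinv (fun x => ρ (x + s • (ψ x - x))) ?_ ?_ (fun x hx => (hcl x hx).trans hκε) ?_
    · exact hK.comp (contDiff_const.prodMk contDiff_id : ContDiff ℝ ∞ fun x : Eu ι => (t, x))
    · exact fun x hx => hmem x hx _ ((hd x hx).trans hκη)
    · refine ⟨1 / 2, by norm_num, fun x hx y hy => ?_⟩
      show 1 / 2 * ‖x - y‖ ≤ ‖ρ (x + s • (ψ x - x)) - ρ (y + s • (ψ y - y))‖
      rcases le_total ‖x - y‖ η with hxy | hxy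
      · have h := hlast x hx y hy (x + s • (ψ x - x)) (y + s • (ψ y - y)) hxy
          ((hd x hx).trans hκη) ((hd y hy).trans hκη)
        have e1 : x + s • (ψ x - x) - x - (y + s • (ψ y - y) - y) =
            s • ((ψ x - x) - (ψ y - y)) := by
          rw [add_sub_cancel_left, add_sub_cancel_left, ← smul_sub]
        have e2 : ‖x + s • (ψ x - x) - x - (y + s • (ψ y - y) - y)‖ ≤ κ * ‖x - y‖ := by
          rw [e1, norm_smul, Real.norm_of_nonneg (hs0 t)]
          calc s * ‖(ψ x - x) - (ψ y - y)‖ ≤ 1 * (κ * ‖x - y‖) :=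
                mul_le_mul (hs1 t) (h1 x hx y hy) (norm_nonneg _) zero_le_one
            _ = κ * ‖x - y‖ := one_mul _
        have e3 : L * (‖x + s • (ψ x - x) - x‖ + ‖y + s • (ψ y - y) - y‖) * ‖x - y‖ ≤
            L * (κ + κ) * ‖x - y‖ := by
          have := hd x hx
          have := hd y hy
          gcongr
        have e4 : L * ‖x + s • (ψ x - x) - x - (y + s • (ψ y - y) - y)‖ ≤ L * (κ * ‖x - y‖) :=
          mul_le_mul_of_nonneg_left e2 hL0.le
        have e5 : ‖ρ (x + s • (ψ x - x)) - ρ (y + s • (ψ y - y)) - (x - y)‖ ≤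
            3 * L * κ * ‖x - y‖ := by
          calc _ ≤ L * (κ + κ) * ‖x - y‖ + L * (κ * ‖x - y‖) := h.trans (add_le_add e3 e4)
            _ = 3 * L * κ * ‖x - y‖ := by ring
        have e6 : 3 * L * κ * ‖x - y‖ ≤ 1 / 2 * ‖x - y‖ :=
          mul_le_mul_of_nonneg_right hκL (norm_nonneg _)
        have e7 : ‖x - y‖ ≤ ‖ρ (x + s • (ψ x - x)) - ρ (y + s • (ψ y - y))‖ +
            ‖ρ (x + s • (ψ x - x)) - ρ (y + s • (ψ y - y)) - (x - y)‖ := by
          have := norm_sub_le (ρ (x + s • (ψ x - x)) - ρ (y + s • (ψ y - y)))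
            (ρ (x + s • (ψ x - x)) - ρ (y + s • (ψ y - y)) - (x - y))
          rwa [sub_sub_cancel] at this
        linarith
      · have h2 := hcl x hx
        have h3 := hcl y hy
        have e7 : ‖x - y‖ ≤ ‖ρ (x + s • (ψ x - x)) - ρ (y + s • (ψ y - y))‖ +
            (‖ρ (x + s • (ψ x - x)) - x‖ + ‖ρ (y + s • (ψ y - y)) - y‖) := by
          have e : x - y = (ρ (x + s • (ψ x - x)) - ρ (y + s • (ψ y - y))) -
              ((ρ (x + s • (ψ x - x)) - x) - (ρ (y + s • (ψ y - y)) - y)) := by abel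
          calc ‖x - y‖ = ‖(ρ (x + s • (ψ x - x)) - ρ (y + s • (ψ y - y))) -
              ((ρ (x + s • (ψ x - x)) - x) - (ρ (y + s • (ψ y - y)) - y))‖ := by rw [← e]
            _ ≤ _ := (norm_sub_le _ _).trans (add_le_add le_rfl (norm_sub_le _ _))
        linarith
  · show ρ (x + Real.smoothTransition 0 • (ψ x - x)) = x
    rw [Real.smoothTransition.zero, zero_smul, add_zero, hR.id x hx]
  · show ρ (x + Real.smoothTransition 1 • (ψ x - x)) = ψ x
    rw [Real.smoothTransition.one, one_smul, add_sub_cancel, hR.id _ (hψM hx)]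

end Pool.Agent.W2helper44.CP
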