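import Pool.Agent.W2helper44.CP.Stm

/-!
Project CP (helper44), piece UP: at a fixed scale the mollification is `C¹`-close to the identity if
the map is `C⁰`-close.
-/

set_option autoImplicit false

open Set Filter Topology MeasureTheory
open scoped ContDiff

noncomputable section

namespace Pool.Agent.W2helper44.CP

namespace Helper24

variable {ι : Type} [Fintype ι] {K : Eu ι → ℝ}

theorem hcs (hK : Ker K) : HasCompactSupport K :=
  HasCompactSupport.intro (isCompact_closedBall (0 : Eu ι) 1) fun v hv => by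
    apply hK.supp
    rw [mem_closedBall_zero_iff, not_le] at hv
    exact hv.le

theorem intg (hK : Ker K) {g : Eu ι → Eu ι} (hg : Continuous g) :
    Integrable fun v => K v • g v := by
  apply Continuous.integrable_of_hasCompactSupport (hK.smooth.continuous.smul hg)
  exact (hcs hK).smul_right

theorem intK (hK : Ker K) : Integrable K :=
  hK.smooth.continuous.integrable_of_hasCompactSupport (hcs hK)

theorem int_le (hK : Ker K) {g : Eu ι → Eu ι} {B : ℝ}
    (h : ∀ v, ‖v‖ ≤ 1 → ‖g v‖ ≤ B) : ‖∫ v, K v • g v‖ ≤ B := by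
  have h1 : ‖∫ v, K v • g v‖ ≤ ∫ v, K v * B := by
    apply norm_integral_le_of_norm_le ((intK hK).mul_const B)
    refine Eventually.of_forall fun v => ?_
    rw [norm_smul, Real.norm_of_nonneg (hK.nonneg v)]
    rcases le_total ‖v‖ 1 with hv | hv
    · exact mul_le_mul_of_nonneg_left (h v hv) (hK.nonneg v)
    · rw [hK.supp v hv, zero_mul, zero_mul]
  rwa [integral_mul_const, hK.int, one_mul] at h1

theorem int_const (hK : Ker K) (c : Eu ι) : ∫ v, K v • c = c := by
  rw [integral_smul_const, hK.int, one_smul]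

theorem fd0 (hK : Ker K) {v : Eu ι} (hv : 1 < ‖v‖) : fderiv ℝ K v = 0 := by
  have h : K =ᶠ[𝓝 v] fun _ => (0 : ℝ) := by
    filter_upwards [(isOpen_lt continuous_const continuous_norm).mem_nhds hv] with u hu
    exact hK.supp u (le_of_lt hu)
  rw [h.fderiv_eq]
  simp

theorem intfd (hK : Ker K) : Integrable fun v => ‖fderiv ℝ K v‖ :=
  ((hK.smooth.continuous_fderiv (by simp)).norm).integrable_of_hasCompactSupport
    ((hcs hK).fderiv (𝕜 := ℝ)).norm

end Helper24

open Helper24 in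
theorem p_UP : P_UP := by
  intro hG hM ι _ M ρ K hR hK κ hκ
  obtain ⟨η, L, hη, hL, hmem, hlip, -, -, -, -, hlast⟩ := hG ι M ρ hR
  have hL0 : 0 < L := by linarith
  set C : ℝ := ∫ v, ‖fderiv ℝ K v‖ with hC
  have hC0 : 0 ≤ C := integral_nonneg fun v => norm_nonneg _
  obtain ⟨r₁, hr₁, h1η, h1κ, h1κη⟩ : ∃ r₁ : ℝ, 0 < r₁ ∧ 2 * L * r₁ ≤ η ∧ 7 * L ^ 2 * r₁ ≤ κ ∧
      8 * L ^ 2 * r₁ ≤ κ * η := by
    refine ⟨min (η / (2 * L)) (min (κ / (7 * L ^ 2)) (κ * η / (8 * L ^ 2))), by positivity,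
      ?_, ?_, ?_⟩
    · have h := mul_le_mul_of_nonneg_left (min_le_left (η / (2 * L))
        (min (κ / (7 * L ^ 2)) (κ * η / (8 * L ^ 2)))) (by positivity : 0 ≤ 2 * L)
      rwa [mul_div_cancel₀ _ (by positivity)] at h
    · have h := mul_le_mul_of_nonneg_left ((min_le_right (η / (2 * L))
        (min (κ / (7 * L ^ 2)) (κ * η / (8 * L ^ 2)))).trans (min_le_left _ _))
        (by positivity : 0 ≤ 7 * L ^ 2)
      rwa [mul_div_cancel₀ _ (by positivity)] at h
    · have h := mul_le_mul_of_nonneg_left ((min_le_right (η / (2 * L))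
        (min (κ / (7 * L ^ 2)) (κ * η / (8 * L ^ 2)))).trans (min_le_right _ _))
        (by positivity : 0 ≤ 8 * L ^ 2)
      rwa [mul_div_cancel₀ _ (by positivity)] at h
  refine ⟨r₁, hr₁, fun r hr hrr => ?_⟩
  have h2η : 2 * L * r ≤ η := (mul_le_mul_of_nonneg_left hrr (by positivity)).trans h1η
  have h2κ : 7 * L ^ 2 * r ≤ κ := (mul_le_mul_of_nonneg_left hrr (by positivity)).trans h1κ
  have h2κη : 8 * L ^ 2 * r ≤ κ * η := (mul_le_mul_of_nonneg_left hrr (by positivity)).trans h1κη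
  have hrη : r ≤ η / 2 := by nlinarith
  obtain ⟨ε, hε, hεr, hεC⟩ : ∃ ε : ℝ, 0 < ε ∧ ε ≤ r ∧ C * ε / r ≤ r := by
    refine ⟨min r (r ^ 2 / (C + 1)), by positivity, min_le_left _ _, ?_⟩
    rw [div_le_iff₀ hr]
    calc C * min r (r ^ 2 / (C + 1)) ≤ (C + 1) * (r ^ 2 / (C + 1)) :=
          mul_le_mul (by linarith) (min_le_right _ _) (by positivity) (by positivity)
      _ = r * r := by field_simp
  refine ⟨ε, hε, fun F hF hFM hFε => ?_⟩
  -- notation
  set e : Eu ι → Eu ι := fun y => F (ρ y) - ρ y with he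
  have heC : ContDiff ℝ ∞ e := (hF.comp hR.smooth).sub hR.smooth
  have hcF : Continuous fun y => F (ρ y) := (hF.comp hR.smooth).continuous
  have hcρ : Continuous ρ := hR.smooth.continuous
  have htr : ∀ x : Eu ι, Continuous fun v : Eu ι => x + r • v := fun x => by fun_prop
  have iF : ∀ x : Eu ι, Integrable fun v : Eu ι => K v • F (ρ (x + r • v)) :=
    fun x => intg hK (hcF.comp (htr x))
  have iρ : ∀ x : Eu ι, Integrable fun v : Eu ι => K v • ρ (x + r • v) :=
    fun x => intg hK (hcρ.comp (htr x))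
  have ic : ∀ c : Eu ι, Integrable fun v : Eu ι => K v • c := fun c => intg hK continuous_const
  have i2 : ∀ x y : Eu ι, Integrable fun v : Eu ι => K v • ρ (x + r • v) - K v • ρ (y + r • v) :=
    fun x y => (iρ x).sub (iρ y)
  set Φ : Eu ι → Eu ι := fun x => mol K (fun y => F (ρ y)) (r, x) with hΦ
  set E : Eu ι → Eu ι := fun x => mol K e (r, x) with hE
  have hΦE : ∀ x, Φ x = E x + ∫ v, K v • ρ (x + r • v) := by
    intro x
    have h1 : E x = ∫ v, (K v • F (ρ (x + r • v)) - K v • ρ (x + r • v)) := by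
      show (∫ v, K v • (F (ρ (x + r • v)) - ρ (x + r • v))) = _
      congr 1
      funext v
      rw [smul_sub]
    rw [h1, integral_sub (iF x) (iρ x), sub_add_cancel]
    rfl
  -- points near `M`
  have hnear : ∀ x ∈ M, ∀ z, ‖z - x‖ ≤ η / 2 → ∀ v, ‖v‖ ≤ 1 → ‖z + r • v - x‖ ≤ η := by
    intro x _ z hz v hv
    have h1 : ‖r • v‖ ≤ r := by
      rw [norm_smul, Real.norm_of_nonneg hr.le]
      nlinarith
    calc ‖z + r • v - x‖ = ‖(z - x) + r • v‖ := by congr 1; abel
      _ ≤ ‖z - x‖ + ‖r • v‖ := norm_add_le _ _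
      _ ≤ η := by linarith
  have hesm : ∀ x ∈ M, ∀ z, ‖z - x‖ ≤ η / 2 → ∀ v, ‖v‖ ≤ 1 → ‖e (z + r • v)‖ ≤ ε := by
    intro x hx z hz v hv
    exact hFε _ (hmem x hx _ (hnear x hx z hz v hv))
  have hx0 : ∀ x ∈ M, ‖x - x‖ ≤ η / 2 := fun x _ => by simp; linarith
  -- `Φ` is close to the identity
  have hσ : ∀ x ∈ M, ‖Φ x - x‖ ≤ 2 * L * r := by
    intro x hx
    have h1 : ‖E x‖ ≤ ε := int_le hK fun v hv => hesm x hx x (hx0 x hx) v hv
    have h2 : ‖∫ v, K v • (ρ (x + r • v) - x)‖ ≤ L * r := by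
      apply int_le hK
      intro v hv
      have h3 := (hlip x hx (x + r • v) x (hnear x hx x (hx0 x hx) v hv) (by simp [hη.le])).1
      rw [hR.id x hx] at h3
      refine h3.trans (mul_le_mul_of_nonneg_left ?_ hL0.le)
      rw [add_sub_cancel_left, norm_smul, Real.norm_of_nonneg hr.le]
      nlinarith
    have h3 : ∫ v, K v • (ρ (x + r • v) - x) = (∫ v, K v • ρ (x + r • v)) - x := by
      have h4 : (fun v => K v • (ρ (x + r • v) - x)) =
          fun v => K v • ρ (x + r • v) - K v • x := by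
        funext v; rw [smul_sub]
      rw [h4, integral_sub (iρ x) (ic x), int_const hK]
    have h4 : Φ x - x = E x + ∫ v, K v • (ρ (x + r • v) - x) := by
      rw [h3, hΦE x]; abel
    rw [h4]
    have h5 : ‖E x + ∫ v, K v • (ρ (x + r • v) - x)‖ ≤ ε + L * r :=
      (norm_add_le _ _).trans (add_le_add h1 h2)
    nlinarith
  -- the Lipschitz bound for `E`
  have hEd : ∀ x ∈ M, ∀ z ∈ Metric.closedBall x (η / 2), ‖fderiv ℝ E z‖ ≤ r := by
    intro x hx z hz
    rw [mem_closedBall_iff_norm] at hz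
    refine le_trans (ContinuousLinearMap.opNorm_le_bound _ (by positivity : 0 ≤ C * ε / r)
      fun w => ?_) hεC
    rw [(hM ι K e hK heC).2 r hr z w 0, norm_smul, norm_neg, Real.norm_of_nonneg (by positivity)]
    have h1 : ‖∫ v, (fderiv ℝ K v w) • (e (z + r • v) - 0)‖ ≤
        ∫ v, ‖fderiv ℝ K v‖ * (‖w‖ * ε) := by
      apply norm_integral_le_of_norm_le ((intfd hK).mul_const _)
      refine Eventually.of_forall fun v => ?_
      rw [sub_zero, norm_smul]
      rcases le_or_gt ‖v‖ 1 with hv | hv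
      · calc ‖fderiv ℝ K v w‖ * ‖e (z + r • v)‖ ≤ (‖fderiv ℝ K v‖ * ‖w‖) * ε :=
              mul_le_mul (ContinuousLinearMap.le_opNorm _ _) (hesm x hx z hz v hv)
                (norm_nonneg _) (by positivity)
          _ = ‖fderiv ℝ K v‖ * (‖w‖ * ε) := by ring
      · rw [fd0 hK hv]
        simp
    rw [integral_mul_const] at h1
    calc 1 / r * ‖∫ v, (fderiv ℝ K v w) • (e (z + r • v) - 0)‖ ≤ 1 / r * (C * (‖w‖ * ε)) :=
          mul_le_mul_of_nonneg_left h1 (by positivity)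
      _ = C * ε / r * ‖w‖ := by ring
  have hEdiff : Differentiable ℝ E := by
    have h1 : ContDiff ℝ ∞ E :=
      (hM ι K e hK heC).1.comp (contDiff_const.prodMk contDiff_id : ContDiff ℝ ∞ fun x : Eu ι => (r, x))
    exact h1.differentiable (by simp)
  have hElip : ∀ x ∈ M, ∀ y ∈ M, ‖x - y‖ ≤ η / 2 → ‖E x - E y‖ ≤ r * ‖x - y‖ := by
    intro x hx y hy hxy
    apply Convex.norm_image_sub_le_of_norm_fderiv_le (𝕜 := ℝ) (s := Metric.closedBall x (η / 2))
      (fun z _ => hEdiff z) (hEd x hx) (convex_closedBall _ _)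
    · rw [mem_closedBall_iff_norm, norm_sub_rev]; exact hxy
    · exact Metric.mem_closedBall_self (by positivity)
  have hτ : ∀ x ∈ M, ∀ y ∈ M, ‖x - y‖ ≤ η / 2 →
      ‖(Φ x - x) - (Φ y - y)‖ ≤ 3 * L * r * ‖x - y‖ := by
    intro x hx y hy hxy
    have h1 : ‖∫ v, K v • (ρ (x + r • v) - ρ (y + r • v) - (x - y))‖ ≤ 2 * L * r * ‖x - y‖ := by
      apply int_le hK
      intro v hv
      have hrv : ‖r • v‖ ≤ r := by
        rw [norm_smul, Real.norm_of_nonneg hr.le]
        nlinarith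
      have h2 := hlast x hx y hy (x + r • v) (y + r • v) (by linarith)
        (hnear x hx x (hx0 x hx) v hv) (hnear y hy y (hx0 y hy) v hv)
      rw [add_sub_cancel_left, add_sub_cancel_left, sub_self, norm_zero, mul_zero, add_zero] at h2
      refine h2.trans ?_
      have h3 : L * (‖r • v‖ + ‖r • v‖) ≤ 2 * L * r := by nlinarith
      exact mul_le_mul_of_nonneg_right h3 (norm_nonneg _)
    have h2 : ∫ v, K v • (ρ (x + r • v) - ρ (y + r • v) - (x - y)) =
        (∫ v, K v • ρ (x + r • v)) - (∫ v, K v • ρ (y + r • v)) - (x - y) := by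
      have h4 : (fun v => K v • (ρ (x + r • v) - ρ (y + r • v) - (x - y))) =
          fun v => (K v • ρ (x + r • v) - K v • ρ (y + r • v)) - K v • (x - y) := by
        funext v; rw [smul_sub, smul_sub]
      rw [h4, integral_sub (i2 x y) (ic (x - y)), int_const hK, integral_sub (iρ x) (iρ y)]
    have h3 : (Φ x - x) - (Φ y - y) = (E x - E y) +
        ∫ v, K v • (ρ (x + r • v) - ρ (y + r • v) - (x - y)) := by
      rw [h2, hΦE x, hΦE y]; abel
    rw [h3]
    have h4 := (norm_add_le (E x - E y) (∫ v, K v • (ρ (x + r • v) - ρ (y + r • v) - (x - y)))).trans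
      (add_le_add (hElip x hx y hy hxy) h1)
    have h5 : r * ‖x - y‖ ≤ L * r * ‖x - y‖ := by
      apply mul_le_mul_of_nonneg_right _ (norm_nonneg _)
      nlinarith
    linarith
  have hLσ : ∀ x ∈ M, ‖psi ρ K F r x - x‖ ≤ 2 * L ^ 2 * r := by
    intro x hx
    have h1 := (hlip x hx (Φ x) x ((hσ x hx).trans h2η) (by simp [hη.le])).1
    rw [hR.id x hx] at h1
    have h2 : L * ‖Φ x - x‖ ≤ L * (2 * L * r) := mul_le_mul_of_nonneg_left (hσ x hx) hL0.le
    calc ‖psi ρ K F r x - x‖ = ‖ρ (Φ x) - x‖ := rfl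
      _ ≤ 2 * L ^ 2 * r := by nlinarith
  refine ⟨fun x hx => (hLσ x hx).trans (by nlinarith [sq_nonneg L, hr.le]), fun x hx y hy => ?_⟩
  rcases le_total ‖x - y‖ (η / 2) with hxy | hxy
  · have h1 := hlast x hx y hy (Φ x) (Φ y) (by linarith) ((hσ x hx).trans h2η)
      ((hσ y hy).trans h2η)
    have h2 : L * (‖Φ x - x‖ + ‖Φ y - y‖) * ‖x - y‖ ≤ L * (2 * L * r + 2 * L * r) * ‖x - y‖ := by
      have := hσ x hx
      have := hσ y hy
      gcongr
    have h3 : L * ‖Φ x - x - (Φ y - y)‖ ≤ L * (3 * L * r * ‖x - y‖) :=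
      mul_le_mul_of_nonneg_left (hτ x hx y hy hxy) hL0.le
    have h4 : (psi ρ K F r x - x) - (psi ρ K F r y - y) = ρ (Φ x) - ρ (Φ y) - (x - y) := by
      show (ρ (Φ x) - x) - (ρ (Φ y) - y) = _
      abel
    rw [h4]
    calc ‖ρ (Φ x) - ρ (Φ y) - (x - y)‖
        ≤ L * (2 * L * r + 2 * L * r) * ‖x - y‖ + L * (3 * L * r * ‖x - y‖) :=
          h1.trans (add_le_add h2 h3)
      _ = 7 * L ^ 2 * r * ‖x - y‖ := by ring
      _ ≤ κ * ‖x - y‖ := mul_le_mul_of_nonneg_right h2κ (norm_nonneg _)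
  · have h1 := hLσ x hx
    have h2 := hLσ y hy
    have h3 : κ * (η / 2) ≤ κ * ‖x - y‖ := mul_le_mul_of_nonneg_left hxy hκ.le
    have h4 := norm_sub_le (psi ρ K F r x - x) (psi ρ K F r y - y)
    linarith

end Pool.Agent.W2helper44.CP
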